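import Pool.Agent.Helper62.PM.St7

/-!
# Project PM part 7, module APX: polynomial approximation with the same inequality
-/

set_option autoImplicit false

open MeasureTheory Metric Set Filter Topology Polynomial
open scoped RealInnerProductSpace ContDiff

namespace Pool.Agent.Helper51.PM6

open Pool.Agent.Helper62.PM6
open Pool.Agent.Helper62.Mink

private theorem dpos (x : ℝ) : HasDerivAt (fun y : ℝ => max y 0 ^ 3) (3 * max x 0 ^ 2) x := by
  rcases lt_trichotomy x 0 with h | h | h
  · rw [max_eq_right h.le]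
    refine ((hasDerivAt_const x (0 : ℝ)).congr_of_eventuallyEq ?_).congr_deriv (by norm_num)
    filter_upwards [Iio_mem_nhds h] with y hy
    rw [max_eq_right (le_of_lt hy)]
    norm_num
  · subst h
    rw [max_self]
    have h1 : HasDerivWithinAt (fun y : ℝ => max y 0 ^ 3) (3 * 0 ^ 2) (Iic 0) 0 := by
      refine ((hasDerivWithinAt_const (0 : ℝ) (Iic 0) (0 : ℝ)).congr ?_ ?_).congr_deriv (by norm_num)
      · intro y hy
        rw [max_eq_right hy]
        norm_num
      · norm_num
    have h2 : HasDerivWithinAt (fun y : ℝ => max y 0 ^ 3) (3 * 0 ^ 2) (Ici 0) 0 := by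
      refine (((hasDerivAt_pow 3 (0 : ℝ)).hasDerivWithinAt (s := Ici 0)).congr ?_ ?_).congr_deriv
        (by norm_num)
      · intro y hy
        rw [max_eq_left hy]
      · norm_num
    have h3 := h1.union h2
    rw [Iic_union_Ici, hasDerivWithinAt_univ] at h3
    exact h3
  · rw [max_eq_left h.le]
    refine ((hasDerivAt_pow 3 x).congr_of_eventuallyEq ?_).congr_deriv (by norm_num)
    filter_upwards [Ioi_mem_nhds h] with y hy
    rw [max_eq_left (le_of_lt hy)]

private theorem dPsi (r r' t : ℝ) : HasDerivAt (Psi r r') (psi r r' t) t := by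
  have a1 : HasDerivAt (fun t : ℝ => t - r) 1 t := (hasDerivAt_id t).sub_const r
  have a2 : HasDerivAt (fun t : ℝ => -t - r') (-1) t := ((hasDerivAt_id t).neg).sub_const r'
  have h1 : HasDerivAt (fun t : ℝ => max (t - r) 0 ^ 3 / 3) (3 * max (t - r) 0 ^ 2 * 1 / 3) t :=
    (HasDerivAt.comp (h₂ := fun y : ℝ => max y 0 ^ 3) (h := fun t : ℝ => t - r) t (dpos (t - r)) a1).div_const 3
  have h2 : HasDerivAt (fun t : ℝ => max (-t - r') 0 ^ 3 / 3) (3 * max (-t - r') 0 ^ 2 * (-1) / 3) t :=
    (HasDerivAt.comp (h₂ := fun y : ℝ => max y 0 ^ 3) (h := fun t : ℝ => -t - r') t (dpos (-t - r')) a2).div_const 3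
  refine (h1.sub h2).congr_deriv ?_
  unfold psi
  ring

private theorem mono01 (D D' : ℝ → ℝ) (hD : ∀ t : ℝ, HasDerivAt D (D' t) t)
    (h : ∀ t ∈ Icc (-1 : ℝ) 1, 0 ≤ D' t) (h0 : D 0 = 0) :
    (∀ t ∈ Icc (0 : ℝ) 1, 0 ≤ D t) ∧ ∀ t ∈ Icc (-1 : ℝ) 0, D t ≤ 0 := by
  have hm : MonotoneOn D (Icc (-1) 1) := by
    refine monotoneOn_of_deriv_nonneg (convex_Icc _ _)
      (fun t _ => (hD t).continuousAt.continuousWithinAt)
      (fun t _ => (hD t).differentiableAt.differentiableWithinAt) ?_
    intro t ht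
    rw [(hD t).deriv]
    exact h t (interior_subset ht)
  constructor
  · intro t ht
    rw [← h0]
    exact hm ⟨by norm_num, by norm_num⟩ ⟨by linarith [ht.1], ht.2⟩ ht.1
  · intro t ht
    rw [← h0]
    exact hm ⟨ht.1, by linarith [ht.2]⟩ ⟨by norm_num, by norm_num⟩ ht.2

/-- APX. -/
theorem hAPX : StAPX := by
  intro r r' hr hr' ε hε
  set m : ℝ := min r r' with hm
  have hm0 : 0 < m := lt_min hr hr'
  have hmr : m ≤ r := min_le_left _ _
  have hmr' : m ≤ r' := min_le_right _ _
  set χ : ℝ → ℝ := fun t => psi r r' t / max |t| m ^ 4 with hχ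
  have hpsic : Continuous (psi r r') := by
    unfold psi
    fun_prop
  have hmax : ∀ t : ℝ, 0 < max |t| m := fun t => lt_of_lt_of_le hm0 (le_max_right _ _)
  have hχc : Continuous χ := by
    refine hpsic.div ((continuous_abs.max continuous_const).pow 4) fun t => ?_
    exact pow_ne_zero _ (hmax t).ne'
  have hχt : ∀ t : ℝ, t ^ 4 * χ t = psi r r' t := by
    intro t
    rcases le_or_gt m |t| with h | h
    · have h1 : max |t| m = |t| := max_eq_left h
      have h2 : |t| ^ 4 = t ^ 4 := by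
        rw [show (4 : ℕ) = 2 * 2 by norm_num, pow_mul, pow_mul, sq_abs]
      have h3 : t ^ 4 ≠ 0 := by
        rw [← h2]
        exact pow_ne_zero _ (lt_of_lt_of_le hm0 h).ne'
      simp only [hχ]
      rw [h1, h2, mul_div_cancel₀ _ h3]
    · have h1 := abs_lt.1 h
      have h2 : max (t - r) 0 = 0 := max_eq_right (by linarith [h1.2])
      have h3 : max (-t - r') 0 = 0 := max_eq_right (by linarith [h1.1])
      have h4 : psi r r' t = 0 := by
        unfold psi
        rw [h2, h3]
        norm_num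
      simp only [hχ]
      rw [h4, zero_div, mul_zero]
  set δ : ℝ := min ε 1 / 2 with hδ
  have hδ0 : 0 < δ := by
    have : 0 < min ε 1 := lt_min hε one_pos
    linarith
  have hδε : 2 * δ ≤ ε := by
    have : min ε 1 ≤ ε := min_le_left _ _
    linarith
  obtain ⟨η, hη⟩ := exists_polynomial_near_of_continuousOn (-1) 1 (fun t => χ t + δ)
    (hχc.add continuous_const).continuousOn (δ / 10) (by positivity)
  obtain ⟨Q0, hQ0⟩ := exists_antideriv (X ^ 4 * η)
  -- bounds for `t^4 η`
  have hb : ∀ t ∈ Icc (-1 : ℝ) 1, psi r r' t + 9 / 10 * δ * t ^ 4 ≤ t ^ 4 * η.eval t ∧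
      t ^ 4 * η.eval t ≤ psi r r' t + 11 / 10 * δ * t ^ 4 := by
    intro t ht
    have h1 := abs_lt.1 (hη t ht)
    have h4 : 0 ≤ t ^ 4 := by positivity
    rw [← hχt t]
    constructor
    · nlinarith [h1.1]
    · nlinarith [h1.2]
  have hQd : ∀ t : ℝ, HasDerivAt (fun t => (Q0 - C (Q0.eval 0)).eval t) (t ^ 4 * η.eval t) t := by
    intro t
    have h := (Q0 - C (Q0.eval 0)).hasDerivAt t
    refine h.congr_deriv ?_
    rw [derivative_sub, derivative_C, sub_zero, hQ0, eval_mul, eval_pow, eval_X]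
  have hQ00 : (Q0 - C (Q0.eval 0)).eval 0 = 0 := by simp
  have hPsi0 : Psi r r' 0 = 0 := by
    unfold Psi
    rw [max_eq_right (by linarith : (0 : ℝ) - r ≤ 0), max_eq_right (by linarith : -(0 : ℝ) - r' ≤ 0)]
    norm_num
  have h5 : ∀ t : ℝ, HasDerivAt (fun t : ℝ => t ^ 5) (5 * t ^ 4) t := by
    intro t
    simpa using hasDerivAt_pow 5 t
  have hD1 := mono01 (fun t => (Q0 - C (Q0.eval 0)).eval t - Psi r r' t - 9 / 50 * δ * t ^ 5)
    (fun t => t ^ 4 * η.eval t - psi r r' t - 9 / 50 * δ * (5 * t ^ 4))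
    (fun t => ((hQd t).sub (dPsi r r' t)).sub ((h5 t).const_mul _))
    (fun t ht => by linarith [(hb t ht).1]) (by rw [hQ00, hPsi0]; norm_num)
  have hD2 := mono01 (fun t => 11 / 50 * δ * t ^ 5 - ((Q0 - C (Q0.eval 0)).eval t - Psi r r' t))
    (fun t => 11 / 50 * δ * (5 * t ^ 4) - (t ^ 4 * η.eval t - psi r r' t))
    (fun t => ((h5 t).const_mul _).sub ((hQd t).sub (dPsi r r' t)))
    (fun t ht => by linarith [(hb t ht).2]) (by rw [hQ00, hPsi0]; norm_num)
  refine ⟨X ^ 2 * η, Q0 - C (Q0.eval 0), ?_, hQ00, ?_⟩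
  · rw [derivative_sub, derivative_C, sub_zero, hQ0]
    ring
  · intro t ht
    have hev : t ^ 2 * (X ^ 2 * η).eval t = t ^ 4 * η.eval t := by
      rw [eval_mul, eval_pow, eval_X]
      ring
    have h4 : 0 ≤ t ^ 4 := by positivity
    have h41 : t ^ 4 ≤ 1 := by
      have h2 : t ^ 2 ≤ 1 := by nlinarith [ht.1, ht.2]
      nlinarith [sq_nonneg t]
    have hpsi0 : 0 ≤ psi r r' t := by
      unfold psi
      positivity
    obtain ⟨hb1, hb2⟩ := hb t ht
    rw [hev]
    have hnn : 0 ≤ t ^ 4 * η.eval t := by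
      have : 0 ≤ δ * t ^ 4 := by positivity
      linarith
    have hclose : |t ^ 4 * η.eval t - psi r r' t| ≤ ε := by
      have : δ * t ^ 4 ≤ δ := by nlinarith
      rw [abs_le]
      constructor <;> nlinarith
    rcases le_total 0 t with h0 | h0
    · have e1 := hD1.1 t ⟨h0, ht.2⟩
      have e2 := hD2.1 t ⟨h0, ht.2⟩
      have hx0 : 0 ≤ max (t - r) 0 := le_max_right _ _
      have hxt : max (t - r) 0 ≤ t := max_le (by linarith) h0
      have hz : max (-t - r') 0 = 0 := max_eq_right (by linarith)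
      have hP0 : 0 ≤ Psi r r' t := by
        unfold Psi
        rw [hz]
        have : 0 ≤ max (t - r) 0 ^ 3 := by positivity
        linarith
      have hP1 : Psi r r' t ≤ t * psi r r' t / 3 := by
        unfold Psi psi
        rw [hz]
        have : max (t - r) 0 ^ 2 * max (t - r) 0 ≤ max (t - r) 0 ^ 2 * t :=
          mul_le_mul_of_nonneg_left hxt (by positivity)
        nlinarith
      have h50 : 0 ≤ δ * t ^ 5 := by positivity
      have h51 : δ * t ^ 5 ≤ δ := by
        have : t ^ 5 ≤ 1 := by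
          have : t ^ 5 = t ^ 4 * t := by ring
          nlinarith [ht.2]
        nlinarith
      have h5t : δ * t ^ 5 = t * (δ * t ^ 4) := by ring
      have hmul : t * (psi r r' t + 9 / 10 * δ * t ^ 4) ≤ t * (t ^ 4 * η.eval t) :=
        mul_le_mul_of_nonneg_left hb1 h0
      refine ⟨hnn, ?_, hclose, ?_⟩
      · rw [abs_of_nonneg h0, abs_of_nonneg (by nlinarith)]
        nlinarith
      · rw [abs_le]
        constructor <;> nlinarith
    · have e1 := hD1.2 t ⟨ht.1, h0⟩
      have e2 := hD2.2 t ⟨ht.1, h0⟩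
      have hx0 : 0 ≤ max (-t - r') 0 := le_max_right _ _
      have hxt : max (-t - r') 0 ≤ -t := max_le (by linarith) (by linarith)
      have hz : max (t - r) 0 = 0 := max_eq_right (by linarith)
      have hP0 : Psi r r' t ≤ 0 := by
        unfold Psi
        rw [hz]
        have : 0 ≤ max (-t - r') 0 ^ 3 := by positivity
        linarith
      have hP1 : t * psi r r' t / 3 ≤ Psi r r' t := by
        unfold Psi psi
        rw [hz]
        have : max (-t - r') 0 ^ 2 * max (-t - r') 0 ≤ max (-t - r') 0 ^ 2 * (-t) :=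
          mul_le_mul_of_nonneg_left hxt (by positivity)
        nlinarith
      have h5t : δ * t ^ 5 = t * (δ * t ^ 4) := by ring
      have hδ4 : 0 ≤ δ * t ^ 4 := by positivity
      have h50 : δ * t ^ 5 ≤ 0 := by
        rw [h5t]
        exact mul_nonpos_of_nonpos_of_nonneg h0 hδ4
      have h51 : -δ ≤ δ * t ^ 5 := by
        have h6 : δ * t ^ 4 ≤ δ := by nlinarith
        rw [h5t]
        nlinarith [ht.1]
      have hmul : t * (t ^ 4 * η.eval t) ≤ t * (psi r r' t + 9 / 10 * δ * t ^ 4) :=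
        mul_le_mul_of_nonpos_left hb1 h0
      refine ⟨hnn, ?_, hclose, ?_⟩
      · rw [abs_of_nonpos h0, abs_of_nonpos (by nlinarith)]
        nlinarith
      · rw [abs_le]
        constructor <;> nlinarith

end Pool.Agent.Helper51.PM6
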