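import Pool.Agent.Helper62.PM.St

/-!
# Project PM (MP_ae3a4d_gt): module I, the linear extension of an admissible map
-/

set_option autoImplicit false

open MeasureTheory Metric Set Filter Topology
open scoped RealInnerProductSpace ContDiff

namespace Pool.Agent.Helper51.PM

open Pool.Agent.Helper62.PM
open Pool.Agent.Helper62.Mink

variable {n : ℕ}

private theorem ON_compact : IsCompact {p : E n × E n | ON p} := by
  have hcl : IsClosed {p : E n × E n | ON p} := by
    have h1 : IsClosed {p : E n × E n | ‖p.1‖ = 1} := isClosed_eq (by fun_prop) (by fun_prop)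
    have h2 : IsClosed {p : E n × E n | ‖p.2‖ = 1} := isClosed_eq (by fun_prop) (by fun_prop)
    have h3 : IsClosed {p : E n × E n | (inner ℝ p.1 p.2 : ℝ) = 0} :=
      isClosed_eq (by fun_prop) (by fun_prop)
    have : {p : E n × E n | ON p} = {p : E n × E n | ‖p.1‖ = 1} ∩ ({p : E n × E n | ‖p.2‖ = 1} ∩
        {p : E n × E n | (inner ℝ p.1 p.2 : ℝ) = 0}) := by
      ext p
      simp only [ON, mem_setOf_eq, mem_inter_iff]
    rw [this]
    exact h1.inter (h2.inter h3)
  refine ((isCompact_closedBall (0 : E n) 1).prod (isCompact_closedBall (0 : E n) 1)).of_isClosed_subset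
    hcl ?_
  rintro ⟨x, y⟩ ⟨hx, hy, -⟩
  exact ⟨by simpa using hx.le, by simpa using hy.le⟩

private theorem ON_exists (hn : 2 ≤ n) : ∃ p : E n × E n, ON p := by
  refine ⟨(EuclideanSpace.single (⟨0, by omega⟩ : Fin n) 1, EuclideanSpace.single (⟨1, by omega⟩ : Fin n) 1),
    ?_, ?_, ?_⟩
  · simp
  · simp
  · simp [EuclideanSpace.inner_single_left]

private theorem D2_bound (hD : StD) {φ : E n → ℝ} (hφ : S1 φ) :
    ∃ b : ℝ, 0 ≤ b ∧ ∀ p : E n × E n, ON p → |D2 φ p.2 p.1| ≤ b := by
  have hc : ContinuousOn (fun p : E n × E n => D2 φ p.2 p.1) {p | ON p} := ((hD n).2.2.2.2 φ hφ).2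
  obtain ⟨b, hb⟩ := ON_compact.exists_bound_of_continuousOn hc
  refine ⟨max b 0, le_max_right _ _, fun p hp => ?_⟩
  have := hb p hp
  rw [Real.norm_eq_abs] at this
  exact this.trans (le_max_left _ _)

private theorem sub_of (hE : StE) (hD : StD) (hF : StF) (hn : 2 ≤ n) {ψ : E n → ℝ} (hψ : S1 ψ)
    (h : ∀ p : E n × E n, ON p → 0 ≤ D2 ψ p.2 p.1) : Sublinear ψ :=
  ⟨hψ.hom, hE n ψ hn ((hD n).2.2.2.2 ψ hψ).1 hψ.hom fun a b hab =>
    ⟨D2 ψ b a, h (a, b) hab, hF n ψ a b hab hψ⟩⟩

/-- `φ + c ‖·‖` is sublinear for `c` large -/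
private theorem sub_add (hE : StE) (hD : StD) (hF : StF) (hn : 2 ≤ n) {φ : E n → ℝ} (hφ : S1 φ) {c : ℝ}
    (h : ∀ p : E n × E n, ON p → |D2 φ p.2 p.1| ≤ c) : Sublinear (fun z => φ z + c * ‖z‖) := by
  obtain ⟨h1, h2, -, ⟨h4, h5⟩, -⟩ := hD n
  obtain ⟨h6, h7⟩ := h2 c _ h4
  obtain ⟨h8, h9⟩ := h1 φ _ hφ h6
  refine sub_of hE hD hF hn h8 fun p hp => ?_
  rw [h9 p hp, h7 p hp, h5 p hp]
  have := abs_le.1 (h p hp)
  linarith [this.1]

private theorem sub_norm {c : ℝ} (hc : 0 ≤ c) : Sublinear (fun z : E n => c * ‖z‖) := by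
  refine ⟨fun d hd x => ?_, fun x y => ?_⟩
  · simp only [norm_smul, Real.norm_eq_abs, abs_of_nonneg hd]
    ring
  · have := mul_le_mul_of_nonneg_left (norm_add_le x y) hc
    linarith

private theorem sub_smul {h : E n → ℝ} (hh : Sublinear h) {c : ℝ} (hc : 0 ≤ c) : Sublinear (fun z : E n => c * h z) := by
  refine ⟨fun d hd x => ?_, fun x y => ?_⟩
  · simp only [hh.pos_hom d hd]
    ring
  · have := mul_le_mul_of_nonneg_left (hh.add_le x y) hc
    linarith

/-- `φ` is the difference of the support functions of the pair -/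
private def Rp (φ : E n → ℝ) (p : ConvexBody (E n) × ConvexBody (E n)) : Prop :=
  ∀ z, supp p.1 z = φ z + supp p.2 z

open Classical in
private noncomputable def AA (T : ConvexBody (E n) → ConvexBody (E n)) (φ : E n → ℝ) (x : E n) : ℝ :=
  if h : ∃ p : ConvexBody (E n) × ConvexBody (E n), Rp φ p then
    supp (T h.choose.1) x - supp (T h.choose.2) x else 0

private theorem AA_eq {T : ConvexBody (E n) → ConvexBody (E n)} (hT : Admissible T) {φ : E n → ℝ}
    {p : ConvexBody (E n) × ConvexBody (E n)} (hp : Rp φ p) (x : E n) :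
    AA T φ x = supp (T p.1) x - supp (T p.2) x := by
  have h : ∃ p : ConvexBody (E n) × ConvexBody (E n), Rp φ p := ⟨p, hp⟩
  unfold AA
  rw [dif_pos h]
  have h1 : Rp φ h.choose := h.choose_spec
  have h2 : p.1 + h.choose.2 = h.choose.1 + p.2 := by
    apply supp_inj
    funext z
    rw [supp_add, supp_add, hp z, h1 z]
    ring
  have h3 := hT.additive p.1 h.choose.2 x
  have h4 := hT.additive h.choose.1 p.2 x
  rw [h2] at h3
  linarith

private theorem Rp_exists (hE : StE) (hD : StD) (hF : StF) (hn : 2 ≤ n) {φ : E n → ℝ} (hφ : S1 φ) {c : ℝ}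
    (hc : 0 ≤ c) (h : ∀ p : E n × E n, ON p → |D2 φ p.2 p.1| ≤ c) :
    ∃ p : ConvexBody (E n) × ConvexBody (E n), Rp φ p ∧ (∀ z, supp p.1 z = φ z + c * ‖z‖) ∧
      ∀ z, supp p.2 z = c * ‖z‖ := by
  obtain ⟨K, hK⟩ := exists_body (sub_add hE hD hF hn hφ h)
  obtain ⟨B, hB⟩ := exists_body (sub_norm (n := n) hc)
  refine ⟨(K, B), fun z => ?_, fun z => ?_, fun z => ?_⟩
  · show supp K z = φ z + supp B z
    rw [hK, hB]
  · show supp K z = _
    rw [hK]
  · show supp B z = _
    rw [hB]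

private theorem isRot_symm {θ : E n ≃ₗᵢ[ℝ] E n} (h : IsRot θ) : IsRot θ.symm := by
  unfold IsRot at *
  have h1 : (θ.symm.toLinearEquiv.toLinearMap : E n →ₗ[ℝ] E n) ∘ₗ θ.toLinearEquiv.toLinearMap = LinearMap.id := by
    ext x
    simp
  have h2 := congrArg LinearMap.det h1
  rw [LinearMap.det_comp, h, LinearMap.det_id, mul_one] at h2
  exact h2

private theorem AA_body {T : ConvexBody (E n) → ConvexBody (E n)} (hT : Admissible T)
    {K : ConvexBody (E n)} {φ : E n → ℝ} (h : supp K = φ) (x : E n) : AA T φ x = supp (T K) x := by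
  have h1 : Rp φ (K + K, K) := fun z => by
    show supp (K + K) z = φ z + supp K z
    rw [supp_add, h]
  rw [AA_eq hT h1]
  have := hT.additive K K x
  simp only
  linarith

theorem hI : StD → StE → StF → StH → StI := by
  intro hD hE hF hH n T hn hT
  obtain ⟨⟨C, hC0, hC⟩, hH2⟩ := hH n T hT
  have hex : ∀ φ : E n → ℝ, S1 φ → ∃ p : ConvexBody (E n) × ConvexBody (E n), Rp φ p := by
    intro φ hφ
    obtain ⟨b, hb0, hb⟩ := D2_bound hD hφ
    obtain ⟨p, hp, -⟩ := Rp_exists hE hD hF hn hφ hb0 hb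
    exact ⟨p, hp⟩
  refine ⟨AA T, 2 * C, by positivity, ?_, ?_, ?_, ?_, ?_, ?_⟩
  · intro φ ψ hφ hψ x
    obtain ⟨p, hp⟩ := hex φ hφ
    obtain ⟨q, hq⟩ := hex ψ hψ
    have h1 : Rp (fun z => φ z + ψ z) (p.1 + q.1, p.2 + q.2) := fun z => by
      show supp (p.1 + q.1) z = φ z + ψ z + supp (p.2 + q.2) z
      rw [supp_add, supp_add, hp z, hq z]
      ring
    rw [AA_eq hT h1, AA_eq hT hp, AA_eq hT hq]
    show supp (T (p.1 + q.1)) x - supp (T (p.2 + q.2)) x = _
    rw [hT.additive, hT.additive]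
    ring
  · intro c φ hφ x
    obtain ⟨p, hp⟩ := hex φ hφ
    rcases le_total 0 c with hc | hc
    · obtain ⟨K, hK⟩ := exists_body (sub_smul (supp_sublinear p.1) hc)
      obtain ⟨L, hL⟩ := exists_body (sub_smul (supp_sublinear p.2) hc)
      have h1 : Rp (fun z => c * φ z) (K, L) := fun z => by
        show supp K z = c * φ z + supp L z
        rw [hK, hL]
        simp only
        rw [hp z]
        ring
      rw [AA_eq hT h1, AA_eq hT hp]
      show supp (T K) x - supp (T L) x = _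
      rw [hH2 p.1 K c hc (fun x => by rw [hK]) x, hH2 p.2 L c hc (fun x => by rw [hL]) x]
      ring
    · have hc' : 0 ≤ -c := by linarith
      obtain ⟨K, hK⟩ := exists_body (sub_smul (supp_sublinear p.1) hc')
      obtain ⟨L, hL⟩ := exists_body (sub_smul (supp_sublinear p.2) hc')
      have h1 : Rp (fun z => c * φ z) (L, K) := fun z => by
        show supp L z = c * φ z + supp K z
        rw [hK, hL]
        simp only
        rw [hp z]
        ring
      rw [AA_eq hT h1, AA_eq hT hp]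
      show supp (T L) x - supp (T K) x = _
      rw [hH2 p.1 K (-c) hc' (fun x => by rw [hK]) x, hH2 p.2 L (-c) hc' (fun x => by rw [hL]) x]
      ring
  · intro K _ x
    exact AA_body hT rfl x
  · intro θ hθ φ hφ x
    obtain ⟨p, hp⟩ := hex φ hφ
    have h1 : Rp (fun z => φ (θ z)) (rot θ.symm p.1, rot θ.symm p.2) := fun z => by
      show supp (rot θ.symm p.1) z = φ (θ z) + supp (rot θ.symm p.2) z
      rw [supp_rot, supp_rot, LinearIsometryEquiv.symm_symm, hp (θ z)]
    rw [AA_eq hT h1, AA_eq hT hp]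
    show supp (T (rot θ.symm p.1)) x - supp (T (rot θ.symm p.2)) x = _
    rw [hT.equivariant θ.symm (isRot_symm hθ), hT.equivariant θ.symm (isRot_symm hθ), supp_rot, supp_rot,
      LinearIsometryEquiv.symm_symm]
  · intro φ hφ a b ha hb x hx
    obtain ⟨q, hq⟩ := ON_exists hn
    have hb0 : 0 ≤ b := (abs_nonneg _).trans (hb q hq)
    have ha0 : 0 ≤ a := (abs_nonneg _).trans (ha x hx)
    have hφx : ∀ z, |φ z| ≤ a * ‖z‖ := by
      intro z
      rcases eq_or_ne z 0 with rfl | hz
      · have := hφ.hom 0 le_rfl 0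
        rw [zero_smul, zero_mul] at this
        rw [this]
        simp
      · have hz' : 0 < ‖z‖ := norm_pos_iff.2 hz
        have h1 := hφ.hom ‖z‖ hz'.le (‖z‖⁻¹ • z)
        rw [smul_smul, mul_inv_cancel₀ hz'.ne', one_smul] at h1
        rw [h1, abs_mul, abs_of_pos hz', mul_comm a]
        refine mul_le_mul_of_nonneg_left (ha _ ?_) hz'.le
        rw [norm_smul, norm_inv, norm_norm, inv_mul_cancel₀ hz'.ne']
    obtain ⟨p, hp, hp1, hp2⟩ := Rp_exists hE hD hF hn hφ hb0 hb
    rw [AA_eq hT hp]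
    have h1 := hC p.1 (a + b) (by linarith) (fun z => by
      rw [hp1 z]
      have h2 := abs_add_le (φ z) (b * ‖z‖)
      rw [abs_mul, abs_norm, abs_of_nonneg hb0] at h2
      have h3 := hφx z
      nlinarith) x
    have h2 := hC p.2 b hb0 (fun z => by
      rw [hp2 z, abs_mul, abs_norm, abs_of_nonneg hb0]) x
    rw [hx, mul_one] at h1 h2
    have h3 := abs_sub (supp (T p.1) x) (supp (T p.2) x)
    have h4 : C * b ≤ C * (a + b) := mul_le_mul_of_nonneg_left (by linarith) hC0
    linarith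
  · intro φ hφ hs
    obtain ⟨K, hK⟩ := exists_body hs
    have : AA T φ = supp (T K) := funext fun x => AA_body hT hK x
    rw [this]
    exact supp_sublinear _

end Pool.Agent.Helper51.PM
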