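import Pool.Agent.Helper62.PM.St4

/-!
# Project PM (MP_ae3a4d_gt): module NA, calculus of zonal functions
-/

set_option autoImplicit false

open MeasureTheory Metric Set Filter Topology
open scoped RealInnerProductSpace ContDiff

namespace Pool.Agent.Helper51.PM

open Pool.Agent.Helper62.PM
open Pool.Agent.Helper62.Mink

variable {n : ℕ}

private theorem na_mem {e : E n} (he : ‖e‖ = 1) {r : ℝ} (hr : 1 < r) {x : E n} (hx : x ≠ 0) :
    (inner ℝ e x : ℝ) / ‖x‖ ∈ Ioo (-r) r := by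
  have hx' : 0 < ‖x‖ := norm_pos_iff.2 hx
  have h1 := abs_real_inner_le_norm e x
  rw [he, one_mul] at h1
  have h2 : |(inner ℝ e x : ℝ) / ‖x‖| ≤ 1 := by
    rw [abs_div, abs_norm, div_le_one hx']
    exact h1
  have h3 := abs_le.1 h2
  exact ⟨by linarith [h3.1], by linarith [h3.2]⟩

private theorem na_mem1 {e : E n} (he : ‖e‖ = 1) {r : ℝ} (hr : 1 < r) {x : E n} (hx : ‖x‖ = 1) :
    (inner ℝ e x : ℝ) ∈ Ioo (-r) r := by
  have hx0 : x ≠ 0 := by
    intro h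
    rw [h, norm_zero] at hx
    exact zero_ne_one hx
  have h := na_mem he hr hx0
  rwa [hx, div_one] at h

private theorem na_S1 {e : E n} {g : ℝ → ℝ} {r : ℝ} (he : ‖e‖ = 1) (hr : 1 < r)
    (hg : ContDiffOn ℝ ∞ g (Ioo (-r) r)) : S1 (zf e g) := by
  refine ⟨fun c hc x => ?_, ?_⟩
  · unfold zf
    rcases hc.eq_or_lt with h0 | h0
    · rw [← h0]; simp
    · rw [norm_smul, Real.norm_eq_abs, abs_of_pos h0, inner_smul_right, mul_div_mul_left _ _ h0.ne']
      ring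
  · intro x hx
    have hx' : x ≠ 0 := hx
    have hn : ContDiffAt ℝ ∞ (fun z : E n => ‖z‖) x := contDiffAt_norm ℝ hx'
    have h1 : ContDiffAt ℝ ∞ (fun z : E n => (inner ℝ e z : ℝ) / ‖z‖) x := by
      refine ContDiffAt.div ?_ hn (norm_ne_zero_iff.2 hx')
      exact (contDiff_const.inner ℝ contDiff_id).contDiffAt
    have h2 : ContDiffAt ℝ ∞ g ((inner ℝ e x : ℝ) / ‖x‖) :=
      hg.contDiffAt (isOpen_Ioo.mem_nhds (na_mem he hr hx'))
    have h3 : ContDiffAt ℝ ∞ (fun z : E n => g ((inner ℝ e z : ℝ) / ‖z‖)) x :=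
      ContDiffAt.comp (g := g) x h2 h1
    exact (hn.mul h3).contDiffWithinAt

private theorem na_D2 {e : E n} {g g1 g2 : ℝ → ℝ} {r : ℝ} (he : ‖e‖ = 1) (hr : 1 < r)
    (hg : ContDiffOn ℝ ∞ g (Ioo (-r) r)) (hg1 : ∀ t ∈ Ioo (-r) r, HasDerivAt g (g1 t) t)
    (hg2 : ∀ t ∈ Ioo (-r) r, HasDerivAt g1 (g2 t) t) {x y : E n} (hp : ON (x, y)) :
    D2 (zf e g) y x = (g (inner ℝ e x) - inner ℝ e x * g1 (inner ℝ e x)) + g2 (inner ℝ e x) * inner ℝ e y ^ 2 := by
  obtain ⟨hx, hy, hxy⟩ := hp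
  simp only at hx hy hxy
  have hS := na_S1 he hr hg
  have hnorm : ∀ τ : ℝ, ‖x + τ • y‖ = √(1 + τ ^ 2) := by
    intro τ
    rw [eq_comm, Real.sqrt_eq_iff_mul_self_eq (by positivity) (norm_nonneg _), ← sq, ← real_inner_self_eq_norm_sq]
    simp only [inner_add_left, inner_add_right, inner_smul_left, inner_smul_right, real_inner_self_eq_norm_sq,
      hx, hy, hxy, real_inner_comm x y, RCLike.conj_to_real]
    ring
  have hs : ∀ τ : ℝ, 0 < √(1 + τ ^ 2) := fun τ => Real.sqrt_pos.2 (by positivity)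
  have hs2 : ∀ τ : ℝ, √(1 + τ ^ 2) ^ 2 = 1 + τ ^ 2 := fun τ => Real.sq_sqrt (by positivity)
  have hne : ∀ τ : ℝ, x + τ • y ≠ 0 := by
    intro τ h
    have h1 := hnorm τ
    rw [h, norm_zero] at h1
    exact (hs τ).ne h1
  set t : ℝ := inner ℝ e x with ht
  set q : ℝ := inner ℝ e y with hq
  have hin : ∀ τ : ℝ, (inner ℝ e (x + τ • y) : ℝ) = t + τ * q := by
    intro τ
    rw [inner_add_right, inner_smul_right]
  have hu : ∀ τ : ℝ, (t + τ * q) / √(1 + τ ^ 2) ∈ Ioo (-r) r := by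
    intro τ
    have h := na_mem he hr (hne τ)
    rwa [hin, hnorm] at h
  have hF : ∀ τ : ℝ, zf e g (x + τ • y) = √(1 + τ ^ 2) * g ((t + τ * q) / √(1 + τ ^ 2)) := by
    intro τ
    unfold zf
    rw [hin, hnorm]
  -- derivatives of the pieces
  have ds : ∀ τ : ℝ, HasDerivAt (fun τ : ℝ => √(1 + τ ^ 2)) (τ / √(1 + τ ^ 2)) τ := by
    intro τ
    have h1 : HasDerivAt (fun τ : ℝ => 1 + τ ^ 2) (2 * τ) τ := by
      have h2 := (hasDerivAt_pow 2 τ).const_add 1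
      simpa using h2
    have h3 := h1.sqrt (by positivity)
    convert h3 using 1
    have := hs τ
    field_simp
  have dl : ∀ τ : ℝ, HasDerivAt (fun τ : ℝ => t + τ * q) q τ := by
    intro τ
    have h2 := ((hasDerivAt_id τ).mul_const q).const_add t
    simpa using h2
  have du : ∀ τ : ℝ, HasDerivAt (fun τ : ℝ => (t + τ * q) / √(1 + τ ^ 2))
      ((q * √(1 + τ ^ 2) - (t + τ * q) * (τ / √(1 + τ ^ 2))) / √(1 + τ ^ 2) ^ 2) τ :=
    fun τ => (dl τ).div (ds τ) (hs τ).ne'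
  have dgu : ∀ τ : ℝ, HasDerivAt (fun τ : ℝ => g ((t + τ * q) / √(1 + τ ^ 2)))
      (g1 ((t + τ * q) / √(1 + τ ^ 2)) *
        ((q * √(1 + τ ^ 2) - (t + τ * q) * (τ / √(1 + τ ^ 2))) / √(1 + τ ^ 2) ^ 2)) τ :=
    fun τ => (hg1 _ (hu τ)).comp τ (du τ)
  have dg1u : ∀ τ : ℝ, HasDerivAt (fun τ : ℝ => g1 ((t + τ * q) / √(1 + τ ^ 2)))
      (g2 ((t + τ * q) / √(1 + τ ^ 2)) *
        ((q * √(1 + τ ^ 2) - (t + τ * q) * (τ / √(1 + τ ^ 2))) / √(1 + τ ^ 2) ^ 2)) τ :=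
    fun τ => (hg2 _ (hu τ)).comp τ (du τ)
  -- the first derivative along the line
  have dline : ∀ τ : ℝ, HasDerivAt (fun τ : ℝ => x + τ • y) y τ := by
    intro τ
    have h2 := ((hasDerivAt_id τ).smul_const y).const_add x
    simpa using h2
  have hA : ∀ τ : ℝ, fderiv ℝ (zf e g) (x + τ • y) y =
      τ / √(1 + τ ^ 2) * g ((t + τ * q) / √(1 + τ ^ 2)) +
        g1 ((t + τ * q) / √(1 + τ ^ 2)) * ((q - t * τ) / (1 + τ ^ 2)) := by
    intro τ
    have h1 : HasFDerivAt (zf e g) (fderiv ℝ (zf e g) (x + τ • y)) (x + τ • y) :=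
      ((cda hS.smooth (hne τ)).differentiableAt (by simp)).hasFDerivAt
    have h2 := h1.comp_hasDerivAt τ (dline τ)
    have h3 : HasDerivAt (fun τ : ℝ => zf e g (x + τ • y)) _ τ :=
      ((ds τ).mul (dgu τ)).congr_of_eventuallyEq (Filter.Eventually.of_forall hF)
    have h4 := h2.unique h3
    rw [h4]
    have h5 := hs τ
    have h6 := hs2 τ
    have h7 : √(1 + τ ^ 2) * (g1 ((t + τ * q) / √(1 + τ ^ 2)) *
        ((q * √(1 + τ ^ 2) - (t + τ * q) * (τ / √(1 + τ ^ 2))) / √(1 + τ ^ 2) ^ 2)) =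
        g1 ((t + τ * q) / √(1 + τ ^ 2)) * ((q - t * τ) / (1 + τ ^ 2)) := by
      have h8 : √(1 + τ ^ 2) * ((q * √(1 + τ ^ 2) - (t + τ * q) * (τ / √(1 + τ ^ 2))) / √(1 + τ ^ 2) ^ 2) =
          (q - t * τ) / (1 + τ ^ 2) := by
        have h9 : √(1 + τ ^ 2) * (q * √(1 + τ ^ 2) - (t + τ * q) * (τ / √(1 + τ ^ 2))) = q - t * τ := by
          have h10 : √(1 + τ ^ 2) * (τ / √(1 + τ ^ 2)) = τ := by field_simp
          calc √(1 + τ ^ 2) * (q * √(1 + τ ^ 2) - (t + τ * q) * (τ / √(1 + τ ^ 2)))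
              = q * √(1 + τ ^ 2) ^ 2 - (t + τ * q) * (√(1 + τ ^ 2) * (τ / √(1 + τ ^ 2))) := by ring
            _ = _ := by rw [h6, h10]; ring
        rw [← mul_div_assoc, h9, h6]
      calc _ = g1 ((t + τ * q) / √(1 + τ ^ 2)) * (√(1 + τ ^ 2) *
          ((q * √(1 + τ ^ 2) - (t + τ * q) * (τ / √(1 + τ ^ 2))) / √(1 + τ ^ 2) ^ 2)) := by ring
        _ = _ := by rw [h8]
    rw [← h7]
  -- the second derivative at zero
  have hB : HasDerivAt (fun τ : ℝ => fderiv ℝ (zf e g) (x + τ • y) y) (D2 (zf e g) y x) 0 := by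
    have hx0 : x ≠ 0 := by
      have := hne 0
      simpa using this
    have h1 : HasFDerivAt (fun z => fderiv ℝ (zf e g) z y) (fderiv ℝ (fun z => fderiv ℝ (zf e g) z y) (x + (0 : ℝ) • y))
        (x + (0 : ℝ) • y) :=
      ((cda1 hS.smooth y (hne 0)).differentiableAt (by simp)).hasFDerivAt
    have h2 := h1.comp_hasDerivAt 0 (dline 0)
    have h3 : fderiv ℝ (fun z => fderiv ℝ (zf e g) z y) (x + (0 : ℝ) • y) y = D2 (zf e g) y x := by
      unfold D2
      rw [zero_smul, add_zero]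
    rw [h3] at h2
    exact h2
  have hC : HasDerivAt (fun τ : ℝ => τ / √(1 + τ ^ 2) * g ((t + τ * q) / √(1 + τ ^ 2)) +
        g1 ((t + τ * q) / √(1 + τ ^ 2)) * ((q - t * τ) / (1 + τ ^ 2)))
      ((g t - t * g1 t) + g2 t * q ^ 2) 0 := by
    have e1 : HasDerivAt (fun τ : ℝ => τ / √(1 + τ ^ 2)) _ 0 := (hasDerivAt_id (0 : ℝ)).div (ds 0) (hs 0).ne'
    have e2 := e1.mul (dgu 0)
    have e3 : HasDerivAt (fun τ : ℝ => q - t * τ) (-t) 0 := by
      have := ((hasDerivAt_id (0 : ℝ)).const_mul t).const_sub q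
      simpa using this
    have e4 : HasDerivAt (fun τ : ℝ => 1 + τ ^ 2) 0 0 := by
      have := (hasDerivAt_pow 2 (0 : ℝ)).const_add 1
      simpa using this
    have e5 := e3.div e4 (by norm_num)
    have e6 := (dg1u 0).mul e5
    have e7 := e2.add e6
    have hs0 : √(1 + (0 : ℝ) ^ 2) = 1 := by norm_num
    refine e7.congr_deriv ?_
    simp only [Pi.div_apply, id, hs0, zero_mul, add_zero, mul_zero, sub_zero, mul_one, one_mul, div_one, zero_div, zero_add,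
      ne_eq, OfNat.ofNat_ne_zero, not_false_eq_true, zero_pow, one_pow]
    ring
  have hfun : (fun τ : ℝ => fderiv ℝ (zf e g) (x + τ • y) y) = fun τ : ℝ => τ / √(1 + τ ^ 2) *
      g ((t + τ * q) / √(1 + τ ^ 2)) + g1 ((t + τ * q) / √(1 + τ ^ 2)) * ((q - t * τ) / (1 + τ ^ 2)) := funext hA
  rw [hfun] at hB
  exact hB.unique hC

private theorem na_Lop (hA : StA) {e : E n} {g g1 g2 : ℝ → ℝ} {r : ℝ} (he : ‖e‖ = 1) (hr : 1 < r)
    (hg1 : ∀ t ∈ Ioo (-r) r, HasDerivAt g (g1 t) t)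
    (hg2 : ∀ t ∈ Ioo (-r) r, HasDerivAt g1 (g2 t) t) {v : E n} (hv : ON (e, v)) {x : E n} (hx : ‖x‖ = 1) :
    Lop e v (zf e g) x = (g (inner ℝ e x) - inner ℝ e x * g1 (inner ℝ e x)) +
      g2 (inner ℝ e x) * inner ℝ v x ^ 2 := by
  obtain ⟨hA1, -, -, -⟩ := hA n e v hv
  have hnorm : ∀ s : ℝ, ‖rp e v s x‖ = 1 := by
    intro s
    obtain ⟨θ, -, hθ⟩ := hA1 s
    rw [← hθ x, θ.norm_map, hx]
  set t : ℝ := inner ℝ e x with ht
  set q : ℝ := inner ℝ v x with hq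
  have hin : ∀ s : ℝ, (inner ℝ e (rp e v s x) : ℝ) = Real.cos s * t - Real.sin s * q := by
    intro s
    obtain ⟨-, -, h0⟩ := hv
    simp only at h0
    have haa : (inner ℝ e e : ℝ) = 1 := by rw [real_inner_self_eq_norm_sq, he]; norm_num
    unfold rp
    simp only [inner_add_right, inner_smul_right, haa, h0, ← ht, ← hq]
    ring
  have hmem : ∀ s : ℝ, Real.cos s * t - Real.sin s * q ∈ Ioo (-r) r := by
    intro s
    rw [← hin s]
    exact na_mem1 he hr (hnorm s)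
  have hF : (fun s : ℝ => zf e g (rp e v s x)) = fun s : ℝ => g (Real.cos s * t - Real.sin s * q) := by
    funext s
    unfold zf
    rw [hin, hnorm, one_mul, div_one]
  have du : ∀ s : ℝ, HasDerivAt (fun s : ℝ => Real.cos s * t - Real.sin s * q) (-Real.sin s * t - Real.cos s * q) s :=
    fun s => ((Real.hasDerivAt_cos s).mul_const t).sub ((Real.hasDerivAt_sin s).mul_const q)
  have d1 : ∀ s : ℝ, HasDerivAt (fun s : ℝ => g (Real.cos s * t - Real.sin s * q))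
      (g1 (Real.cos s * t - Real.sin s * q) * (-Real.sin s * t - Real.cos s * q)) s :=
    fun s => (hg1 _ (hmem s)).comp s (du s)
  have hd : (deriv fun s : ℝ => g (Real.cos s * t - Real.sin s * q)) = fun s : ℝ =>
      g1 (Real.cos s * t - Real.sin s * q) * (-Real.sin s * t - Real.cos s * q) := by
    funext s
    exact (d1 s).deriv
  have e1 : HasDerivAt (fun s : ℝ => g1 (Real.cos s * t - Real.sin s * q))
      (g2 (Real.cos 0 * t - Real.sin 0 * q) * (-Real.sin 0 * t - Real.cos 0 * q)) 0 :=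
    (hg2 _ (hmem 0)).comp 0 (du 0)
  have e2 : HasDerivAt (fun s : ℝ => -Real.sin s * t - Real.cos s * q) (-Real.cos 0 * t - -Real.sin 0 * q) 0 :=
    ((Real.hasDerivAt_sin 0).neg.mul_const t).sub ((Real.hasDerivAt_cos 0).mul_const q)
  have e3 := (e1.mul e2).deriv
  unfold Lop
  rw [hF, hd]
  have e4 : deriv (fun s : ℝ => g1 (Real.cos s * t - Real.sin s * q) * (-Real.sin s * t - Real.cos s * q)) 0 =
      g2 t * q ^ 2 - t * g1 t := by
    refine Eq.trans e3 ?_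
    simp only [Real.cos_zero, Real.sin_zero, one_mul, zero_mul, sub_zero, neg_zero, zero_sub, mul_neg, neg_mul,
      neg_neg]
    ring
  have e5 : zf e g x = g t := by
    unfold zf
    rw [hx, one_mul, div_one]
  rw [e4, e5]
  ring

theorem hNA : StA → StNA := by
  intro hA n e g g1 g2 r he hr hg hg1 hg2
  refine ⟨na_S1 he hr hg, fun p hp => ?_, fun v hv x hx => na_Lop hA he hr hg1 hg2 hv hx⟩
  exact na_D2 he hr hg hg1 hg2 (x := p.1) (y := p.2) hp

end Pool.Agent.Helper51.PM
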