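import Pool.Agent.Helper62.PM.St2

/-!
# Project PM (MP_ae3a4d_gt): module XG, convolution with a zonal polynomial
-/

set_option autoImplicit false

open MeasureTheory Metric Set Filter Topology Polynomial
open scoped RealInnerProductSpace ContDiff

namespace Pool.Agent.Helper51.PM

open Pool.Agent.Helper62.PM
open Pool.Agent.Helper62.Mink

variable {n : ℕ}

private theorem xg_inner (x w : E n) : (inner ℝ x w : ℝ) = ∑ i, x i * w i := by
  rw [PiLp.inner_apply]
  exact Finset.sum_congr rfl fun i _ => by simp [mul_comm]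

/-- the moments are polynomials in `x` -/
private theorem xg_mom {φ : E n → ℝ} (hφ : Continuous φ) (j : ℕ) (x : E n) :
    ∫ w : sphere (0 : E n) 1, φ (w : E n) * (inner ℝ x (w : E n) : ℝ) ^ j ∂(sg n) =
      ∑ σ : Fin j → Fin n, (∏ i, x (σ i)) *
        ∫ w : sphere (0 : E n) 1, φ (w : E n) * ∏ i, (w : E n) (σ i) ∂(sg n) := by
  have h1 : ∀ w : sphere (0 : E n) 1, φ (w : E n) * (inner ℝ x (w : E n) : ℝ) ^ j =
      ∑ σ : Fin j → Fin n, (∏ i, x (σ i)) * (φ (w : E n) * ∏ i, (w : E n) (σ i)) := by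
    intro w
    rw [xg_inner, Fintype.sum_pow, Finset.mul_sum]
    refine Finset.sum_congr rfl fun σ _ => ?_
    rw [Finset.prod_mul_distrib]
    ring
  rw [integral_congr_ae (Filter.Eventually.of_forall h1), integral_finset_sum]
  · refine Finset.sum_congr rfl fun σ _ => ?_
    rw [integral_const_mul]
  · intro σ _
    refine Integrable.const_mul ?_ _
    exact sphere_integrable (φ := fun z : E n => φ z * ∏ i, z (σ i)) (by
      refine (hφ.mul ?_).continuousOn
      refine continuous_finset_prod _ fun i _ => ?_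
      fun_prop)

private theorem xg_eq {φ : E n → ℝ} (hφ : Continuous φ) (p : ℝ[X]) {x : E n} :
    conv φ (fun t => p.eval t) x = ∑ j ∈ Finset.range (p.natDegree + 1),
      p.coeff j * (‖x‖ * (‖x‖⁻¹) ^ j) * ∑ σ : Fin j → Fin n, (∏ i, x (σ i)) *
        ∫ w : sphere (0 : E n) 1, φ (w : E n) * ∏ i, (w : E n) (σ i) ∂(sg n) := by
  unfold conv
  have h1 : ∀ w : sphere (0 : E n) 1, φ (w : E n) * (‖x‖ * p.eval ((inner ℝ x (w : E n) : ℝ) / ‖x‖)) =
      ∑ j ∈ Finset.range (p.natDegree + 1), p.coeff j * (‖x‖ * (‖x‖⁻¹) ^ j) *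
        (φ (w : E n) * (inner ℝ x (w : E n) : ℝ) ^ j) := by
    intro w
    rw [Polynomial.eval_eq_sum_range, Finset.mul_sum, Finset.mul_sum]
    refine Finset.sum_congr rfl fun j _ => ?_
    rw [div_eq_mul_inv, mul_pow]
    ring
  rw [integral_congr_ae (Filter.Eventually.of_forall h1), integral_finset_sum]
  · refine Finset.sum_congr rfl fun j _ => ?_
    rw [integral_const_mul, xg_mom hφ]
  · intro j _
    refine Integrable.const_mul ?_ _
    exact sphere_integrable (φ := fun z : E n => φ z * (inner ℝ x z : ℝ) ^ j) (by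
      refine (hφ.mul ?_).continuousOn
      fun_prop)

private theorem xg_S1 {φ : E n → ℝ} (hφ : Continuous φ) (p : ℝ[X]) :
    S1 (conv φ (fun t => p.eval t)) := by
  refine ⟨fun c hc x => conv_smul _ _ hc x, ?_⟩
  have h1 : conv φ (fun t => p.eval t) = fun x => ∑ j ∈ Finset.range (p.natDegree + 1),
      p.coeff j * (‖x‖ * (‖x‖⁻¹) ^ j) * ∑ σ : Fin j → Fin n, (∏ i, x (σ i)) *
        ∫ w : sphere (0 : E n) 1, φ (w : E n) * ∏ i, (w : E n) (σ i) ∂(sg n) :=
    funext fun x => xg_eq hφ p
  rw [h1]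
  intro x hx
  have hx' : x ≠ 0 := hx
  refine ContDiffAt.contDiffWithinAt ?_
  refine ContDiffAt.sum fun j _ => ?_
  have hn : ContDiffAt ℝ ∞ (fun z : E n => ‖z‖) x := contDiffAt_norm ℝ hx'
  have hn' : ContDiffAt ℝ ∞ (fun z : E n => ‖z‖⁻¹) x := hn.inv (norm_ne_zero_iff.2 hx')
  refine ContDiffAt.mul (ContDiffAt.mul contDiffAt_const (hn.mul (hn'.pow j))) ?_
  refine ContDiffAt.sum fun σ _ => ?_
  refine ContDiffAt.mul ?_ contDiffAt_const
  have h2 : ContDiff ℝ ∞ (fun z : E n => ∏ i, z (σ i)) := by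
    refine contDiff_prod fun i _ => ?_
    fun_prop
  exact h2.contDiffAt

private theorem rp_cont (a b : E n) : Continuous (fun q : ℝ × E n => rp a b q.1 q.2) := by
  unfold rp
  fun_prop

private theorem rp_deriv {a b : E n} (hab : ON (a, b)) (t : ℝ) (x : E n) :
    HasDerivAt (fun t => rp a b t x)
      ((inner ℝ a (rp a b t x) : ℝ) • b - (inner ℝ b (rp a b t x) : ℝ) • a) t := by
  obtain ⟨ha, hb, h0⟩ := hab
  simp only at ha hb h0
  have haa : (inner ℝ a a : ℝ) = 1 := by rw [real_inner_self_eq_norm_sq, ha]; norm_num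
  have hbb : (inner ℝ b b : ℝ) = 1 := by rw [real_inner_self_eq_norm_sq, hb]; norm_num
  have hba : (inner ℝ b a : ℝ) = 0 := by rw [real_inner_comm]; exact h0
  have h1 : HasDerivAt (fun t : ℝ => x + ((Real.cos t - 1) * inner ℝ a x - Real.sin t * inner ℝ b x) • a +
      (Real.sin t * inner ℝ a x + (Real.cos t - 1) * inner ℝ b x) • b)
      (0 + ((-Real.sin t - 0) * inner ℝ a x - Real.cos t * inner ℝ b x) • a +
      (Real.cos t * inner ℝ a x + (-Real.sin t - 0) * inner ℝ b x) • b) t := by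
    refine HasDerivAt.add (HasDerivAt.add (hasDerivAt_const _ _) ?_) ?_
    · exact HasDerivAt.smul_const ((((Real.hasDerivAt_cos t).sub (hasDerivAt_const t 1)).mul_const _).sub
        ((Real.hasDerivAt_sin t).mul_const _)) a
    · exact HasDerivAt.smul_const (((Real.hasDerivAt_sin t).mul_const _).add
        (((Real.hasDerivAt_cos t).sub (hasDerivAt_const t 1)).mul_const _)) b
  have h2 : (inner ℝ a (rp a b t x) : ℝ) = Real.cos t * inner ℝ a x - Real.sin t * inner ℝ b x := by
    unfold rp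
    simp only [inner_add_right, inner_smul_right, haa, h0]
    ring
  have h3 : (inner ℝ b (rp a b t x) : ℝ) = Real.sin t * inner ℝ a x + Real.cos t * inner ℝ b x := by
    unfold rp
    simp only [inner_add_right, inner_smul_right, hbb, hba]
    ring
  unfold rp at *
  convert h1 using 1
  rw [h2, h3]
  module

private theorem key (hA : StA) (p : ℝ[X]) {φ : E n → ℝ} {a b : E n} (hab : ON (a, b)) (hφ : S1 φ)
    (hφc : Continuous φ) (hψ : S1 (Xd a b φ)) {x : E n} (hx : x ≠ 0) :
    Xd a b (conv φ (fun t => p.eval t)) x = conv (Xd a b φ) (fun t => p.eval t) x := by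
  obtain ⟨hA1, hA2, hA3, -⟩ := hA n a b hab
  have hne : ∀ t : ℝ, ∀ z : E n, z ≠ 0 → rp a b t z ≠ 0 := by
    intro t z hz h
    obtain ⟨θ, -, hθ⟩ := hA1 t
    rw [← hθ z] at h
    exact hz (by simpa using h)
  have hw0 : ∀ w : sphere (0 : E n) 1, (w : E n) ≠ 0 := by
    intro w h
    have h1 : ‖(w : E n)‖ = 1 := by simp
    rw [h, norm_zero] at h1
    exact zero_ne_one h1
  -- the two expressions
  have hG : ∀ t : ℝ, conv φ (fun t => p.eval t) (rp a b t x) =
      ∫ w : sphere (0 : E n) 1, φ (rp a b t (w : E n)) * (‖x‖ * p.eval ((inner ℝ x (w : E n) : ℝ) / ‖x‖)) ∂(sg n) := by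
    intro t
    obtain ⟨θ, -, hθ⟩ := hA1 t
    have h1 := conv_rot θ.symm φ (fun t => p.eval t) x
    rw [LinearIsometryEquiv.symm_symm] at h1
    rw [← hθ x, ← h1]
    unfold conv
    refine integral_congr_ae (Filter.Eventually.of_forall fun w => ?_)
    simp only
    rw [hθ (w : E n)]
  have hc : Continuous (fun w : sphere (0 : E n) 1 => ‖x‖ * p.eval ((inner ℝ x (w : E n) : ℝ) / ‖x‖)) := by
    refine continuous_const.mul (p.continuous.comp ?_)
    fun_prop
  have hR := hasDerivAt_param (μ := sg n)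
    (Ψ := fun (t : ℝ) (w : sphere (0 : E n) 1) => φ (rp a b t (w : E n)) *
      (‖x‖ * p.eval ((inner ℝ x (w : E n) : ℝ) / ‖x‖)))
    (Ψ' := fun (t : ℝ) (w : sphere (0 : E n) 1) => Xd a b φ (rp a b t (w : E n)) *
      (‖x‖ * p.eval ((inner ℝ x (w : E n) : ℝ) / ‖x‖)))
    (fun t => by
      refine Continuous.mul ?_ hc
      exact hφc.comp ((rp_cont a b).comp (Continuous.prodMk continuous_const continuous_subtype_val)))
    (by
      have h1 : Continuous (fun q : ℝ × sphere (0 : E n) 1 => Xd a b φ (rp a b q.1 (q.2 : E n))) := by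
        refine hψ.smooth.continuousOn.comp_continuous
          ((rp_cont a b).comp (Continuous.prodMk continuous_fst (continuous_subtype_val.comp continuous_snd))) ?_
        intro q
        exact hne _ _ (hw0 q.2)
      exact h1.mul (hc.comp continuous_snd))
    (fun t w => by
      refine HasDerivAt.mul_const ?_ _
      have h1 : HasFDerivAt φ (fderiv ℝ φ (rp a b t (w : E n))) (rp a b t (w : E n)) :=
        ((cda hφ.smooth (hne t _ (hw0 w))).differentiableAt (by simp)).hasFDerivAt
      exact h1.comp_hasDerivAt t (rp_deriv hab t (w : E n))) 0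
  have hL : HasDerivAt (fun t => conv φ (fun t => p.eval t) (rp a b t x))
      (Xd a b (conv φ (fun t => p.eval t)) x) 0 := by
    have h1 : HasFDerivAt (conv φ (fun t => p.eval t)) (fderiv ℝ (conv φ (fun t => p.eval t)) (rp a b 0 x))
        (rp a b 0 x) :=
      ((cda (xg_S1 hφc p).smooth (hne 0 x hx)).differentiableAt (by simp)).hasFDerivAt
    have h2 := h1.comp_hasDerivAt 0 (rp_deriv hab 0 x)
    rw [hA3] at h2
    exact h2
  have hfun : (fun t => conv φ (fun t => p.eval t) (rp a b t x)) = fun t =>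
      ∫ w : sphere (0 : E n) 1, φ (rp a b t (w : E n)) * (‖x‖ * p.eval ((inner ℝ x (w : E n) : ℝ) / ‖x‖)) ∂(sg n) :=
    funext hG
  rw [hfun] at hL
  have h3 := hL.unique hR
  rw [h3]
  unfold conv
  refine integral_congr_ae (Filter.Eventually.of_forall fun w => ?_)
  simp only
  rw [hA3]

private theorem S1_cont {φ : E n → ℝ} (hφ : S1 φ) : Continuous φ := by
  have h0 : φ 0 = 0 := by
    have := hφ.hom 0 le_rfl 0
    rwa [zero_smul, zero_mul] at this
  obtain ⟨M, hM⟩ := (isCompact_sphere (0 : E n) 1).exists_bound_of_continuousOn (f := φ)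
    (hφ.smooth.continuousOn.mono fun x hx h => by
      rw [mem_singleton_iff] at h
      rw [h] at hx
      simp at hx)
  have hb : ∀ x, |φ x| ≤ |M| * ‖x‖ := by
    intro x
    rcases eq_or_ne x 0 with rfl | hx
    · rw [h0]; simp
    · have hx' : 0 < ‖x‖ := norm_pos_iff.2 hx
      have h1 := hφ.hom ‖x‖ hx'.le (‖x‖⁻¹ • x)
      rw [smul_smul, mul_inv_cancel₀ hx'.ne', one_smul] at h1
      rw [h1, abs_mul, abs_of_pos hx', mul_comm]
      refine mul_le_mul_of_nonneg_right ?_ hx'.le
      have h2 := hM (‖x‖⁻¹ • x) (by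
        rw [mem_sphere_zero_iff_norm, norm_smul, norm_inv, norm_norm, inv_mul_cancel₀ hx'.ne'])
      rw [Real.norm_eq_abs] at h2
      exact h2.trans (le_abs_self M)
  rw [continuous_iff_continuousAt]
  intro x
  rcases eq_or_ne x 0 with rfl | hx
  · unfold ContinuousAt
    rw [h0]
    refine squeeze_zero_norm (a := fun x : E n => |M| * ‖x‖) (fun x => by
      rw [Real.norm_eq_abs]; exact hb x) ?_
    have : Tendsto (fun x : E n => |M| * ‖x‖) (𝓝 0) (𝓝 (|M| * ‖(0 : E n)‖)) :=
      (Continuous.tendsto (by fun_prop) 0)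
    simpa using this
  · exact (cda hφ.smooth hx).continuousAt

theorem hXG : StA → StXA → StXG := by
  intro hA hXA n p
  obtain ⟨h1, h2, -⟩ := hXA n
  refine ⟨fun φ hφ => xg_S1 hφ p, fun φ w x hφ => ?_⟩
  induction w generalizing x with
  | nil => intro _; rfl
  | cons q w ih =>
    intro hx
    have hev : Xw w (conv φ (fun t => p.eval t)) =ᶠ[𝓝 x] conv (Xw w φ) (fun t => p.eval t) := by
      filter_upwards [_root_.isOpen_ne.mem_nhds hx] with y hy
      exact ih y hy
    show Xd _ _ (Xw w (conv φ (fun t => p.eval t))) x = conv (Xd _ _ (Xw w φ)) (fun t => p.eval t) x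
    have h3 : Xd (EuclideanSpace.single q.1 (1 : ℝ)) (EuclideanSpace.single q.2 (1 : ℝ))
        (Xw w (conv φ (fun t => p.eval t))) x =
        Xd (EuclideanSpace.single q.1 (1 : ℝ)) (EuclideanSpace.single q.2 (1 : ℝ))
          (conv (Xw w φ) (fun t => p.eval t)) x := by
      unfold Xd
      rw [hev.fderiv_eq]
    rw [h3]
    by_cases hq : q.1 = q.2
    · rw [hq]
      have h4 : ∀ (f : E n → ℝ) (z : E n), Xd (EuclideanSpace.single q.2 (1 : ℝ))
          (EuclideanSpace.single q.2 (1 : ℝ)) f z = 0 := by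
        intro f z
        unfold Xd
        rw [sub_self, map_zero]
      rw [h4]
      unfold conv
      simp only [h4, zero_mul, integral_zero]
    · refine key hA p ⟨?_, ?_, ?_⟩ (h2 w φ hφ) (S1_cont (h2 w φ hφ)) (h1 _ _ _ (h2 w φ hφ)) hx
      · simp
      · simp
      · simp only [EuclideanSpace.inner_single_left]
        simp [hq]

end Pool.Agent.Helper51.PM
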